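import Mathlib
import Pool.Agent.N818.SN.Stm4
import Pool.Agent.N592.SN.NPSP
import Pool.Agent.N216.SN.T

/-!
# Project SN (helper818), second part: SN-LOCE and SN-LOCF, the local conditions for `WE n`, `WF n`

For `(a, b) = (α n, β n²)` with `2 α = f² + e g²` and `α² - 4 β = e (f g)²` the isogenous curve is
`Y² = X (X - f² n) (X - e g² n)`. The first part follows helper592's file `Pool.Agent.N592.SN.NPSP`
(itself after helper482's and helper402's files), the conditions at two and three follow helper216's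
file `Pool.Agent.N216.SN.T`. (helper163)
-/

set_option autoImplicit false

open scoped Classical

namespace Pool.Agent.N163.SN

open PadicInt
open Pool.Agent.Z702 (LocI)
open Pool.Agent.N818.SN
open Pool.Agent.N482.SL (norm_unit norm_sqf par sq_near_one norm_lt_of_le norm_int_le
  toZMod_eq_zero)
open Pool.Agent.N402.SL (sqQ int_ne)
open Pool.Agent.N592.SN (red mul_sq sq_of_mul two_three)
open Pool.Agent.N216.SN (sqr8 sqr3 dv3 dv_of m3 suf2 suf3)

section

variable {p : ℕ} [hp : Fact p.Prime]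

theorem core (h2 : p ≠ 2) {ρ σ n d : ℤ} (hc : ¬ (p : ℤ) ∣ ρ * σ) (hn : n ≠ 0)
    (hnn' : (p : ℤ) ∣ n → ‖(n : ℚ_[p])‖ = (p : ℝ) ^ (-1 : ℤ))
    (hd : Squarefree d) {X Y r : ℚ_[p]} (hX : X ≠ 0)
    (h : Y ^ 2 = X * (X - ρ * n) * (X - σ * n)) (hr : X = d * r ^ 2) :
    IsSquare (d : ℚ_[p]) ∨ IsSquare ((((ρ * σ) * d : ℤ) : ℤ) : ℚ_[p]) ∨
      (¬ (p : ℤ) ∣ n ∧ ¬ (p : ℤ) ∣ d) ∨
      ((p : ℤ) ∣ n ∧ (p : ℤ) ∣ d ∧ ∃ x : ZMod p, (x = ρ ∨ x = σ) ∧
        ∀ n' d' : ℤ, n = p * n' → d = p * d' → IsSquare (((n' * d' : ℤ) : ZMod p) * x)) := by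
  have hn0 : (n : ℚ_[p]) ≠ 0 := by exact_mod_cast hn
  have hd0 : (d : ℚ_[p]) ≠ 0 := by exact_mod_cast hd.ne_zero
  have hr0 : r ≠ 0 := by
    rintro rfl
    apply hX
    rw [hr]
    ring
  have hp0 : (0 : ℝ) < p := by exact_mod_cast hp.out.pos
  obtain ⟨x, hx⟩ : ∃ x : ℚ_[p], X = n * x := ⟨X / n, by field_simp⟩
  have hx0 : x ≠ 0 := by
    rintro rfl
    exact hX (by rw [hx, mul_zero])
  obtain ⟨c, hcdef⟩ : ∃ c : ℤ, c = ρ * σ := ⟨_, rfl⟩
  obtain ⟨τ, hτ⟩ : ∃ τ : ℤ, τ = ρ + σ := ⟨_, rfl⟩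
  have hcQ : (c : ℚ_[p]) = (ρ : ℚ_[p]) * σ := by
    rw [hcdef]
    push_cast
    ring
  have hτQ : (τ : ℚ_[p]) = (ρ : ℚ_[p]) + σ := by
    rw [hτ]
    push_cast
    ring
  rw [← hcdef] at hc ⊢
  have hY : Y ^ 2 = n ^ 3 * x * (x ^ 2 - τ * x + c) := by
    rw [h, hx, hcQ, hτQ]
    ring
  have hcn : ‖(c : ℚ_[p])‖ = 1 := norm_unit hc
  have hc0 : (c : ℚ_[p]) ≠ 0 := by
    intro h0
    rw [h0, norm_zero] at hcn
    norm_num at hcn
  have hα : ‖(τ : ℚ_[p])‖ ≤ 1 := norm_int_le (p := p) τ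
  rcases lt_trichotomy ‖x‖ 1 with hlt | heq | hgt
  · -- small
    right
    left
    obtain ⟨s, hs0, hs⟩ := sq_near_one h2 (z := (x ^ 2 - τ * x + c) / c) (by
      have e1 : (x ^ 2 - τ * x + c) / c - 1 = (x ^ 2 + (-(τ * x))) / c := by
        field_simp
        ring
      rw [e1, norm_div, hcn, div_one]
      apply norm_lt_of_le
      · rw [norm_pow]
        have := norm_nonneg x
        nlinarith
      · rw [norm_neg, norm_mul]
        have := norm_nonneg x
        nlinarith)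
    have e2 : x ^ 2 - τ * x + c = c * s ^ 2 := by
      rw [div_eq_iff hc0] at hs
      rw [hs]
      ring
    refine ⟨Y / (n * s * r), ?_⟩
    have e3 : Y ^ 2 = (n * s * r) ^ 2 * (c * d) := by
      rw [hY, e2]
      have e4 : (n : ℚ_[p]) * x = d * r ^ 2 := by rw [← hx, hr]
      calc (n : ℚ_[p]) ^ 3 * x * (c * s ^ 2) = c * n ^ 2 * s ^ 2 * (n * x) := by ring
        _ = _ := by rw [e4]; ring
    push_cast
    field_simp
    rw [e3]
    ring
  · -- unit
    right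
    right
    have hXn : ‖(d : ℚ_[p])‖ * ‖r‖ ^ 2 = ‖(n : ℚ_[p])‖ := by
      rw [← norm_pow, ← norm_mul, ← hr, hx, norm_mul, heq, mul_one]
    by_cases hpn : (p : ℤ) ∣ n
    · right
      have hnn := hnn' hpn
      have hq1 : ‖x ^ 2 - τ * x + c‖ < 1 := by
        refine lt_of_le_of_ne ?_ ?_
        · rw [sub_eq_add_neg]
          refine (Padic.nonarchimedean _ _).trans (max_le ((Padic.nonarchimedean _ _).trans
            (max_le ?_ ?_)) hcn.le)
          · rw [norm_pow, heq, one_pow]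
          · rw [norm_neg, norm_mul, heq, mul_one]
            exact hα
        · intro h3
          have h4 : ‖Y‖ ^ 2 = (p : ℝ) ^ (-3 : ℤ) := by
            rw [← norm_pow, hY, norm_mul, norm_mul, norm_pow, hnn, heq, h3, mul_one, mul_one,
              ← zpow_natCast, ← zpow_mul]
            norm_num
          have h5 := par h4
          exact absurd h5 (by decide)
      have hpd : (p : ℤ) ∣ d := by
        by_contra hc
        rw [norm_unit hc, one_mul, hnn] at hXn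
        exact absurd (par hXn) (by decide)
      refine ⟨hpn, hpd, ?_⟩
      have hdn := norm_sqf hd hpd
      have hrn : ‖r‖ = 1 := by
        rw [hdn, hnn] at hXn
        have h3 : ‖r‖ ^ 2 = 1 := by
          have h4 : (p : ℝ) ^ (-1 : ℤ) ≠ 0 := (zpow_pos hp0 _).ne'
          exact mul_left_cancel₀ h4 (by rw [hXn, mul_one])
        exact (pow_eq_one_iff_of_nonneg (norm_nonneg r) two_ne_zero).1 h3
      obtain ⟨x', hx'⟩ : ∃ w : ℤ_[p], (w : ℚ_[p]) = x := ⟨⟨x, heq.le⟩, rfl⟩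
      obtain ⟨r', hr'⟩ : ∃ w : ℤ_[p], (w : ℚ_[p]) = r := ⟨⟨r, hrn.le⟩, rfl⟩
      have hq : (toZMod x' - ρ) * (toZMod x' - σ) = 0 := by
        have h3 : toZMod (x' ^ 2 - ((τ : ℤ) : ℤ_[p]) * x' + ((c : ℤ) : ℤ_[p])) = 0 := by
          rw [toZMod_eq_zero, PadicInt.norm_def]
          push_cast
          rw [hx']
          exact hq1
        rw [map_add, map_sub, map_mul, map_pow, map_intCast, map_intCast, hcdef, hτ] at h3
        push_cast at h3
        linear_combination h3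
      refine ⟨toZMod x', ?_, ?_⟩
      · rcases mul_eq_zero.1 hq with h3 | h3
        · exact Or.inl (sub_eq_zero.1 h3)
        · exact Or.inr (sub_eq_zero.1 h3)
      intro n' d' hn' hd'
      have h3 : ((n' : ℤ) : ZMod p) * toZMod x' = (d' : ZMod p) * toZMod r' ^ 2 := by
        have h4 : (n' : ℤ_[p]) * x' = d' * r' ^ 2 := by
          have h5 : (n : ℚ_[p]) * x = d * r ^ 2 := by rw [← hx, hr]
          rw [hn', hd', ← hx', ← hr'] at h5
          push_cast at h5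
          have hp0' : (p : ℚ_[p]) ≠ 0 := by exact_mod_cast hp.out.ne_zero
          have h6 : (n' : ℚ_[p]) * x' = d' * (r' : ℚ_[p]) ^ 2 := by
            apply mul_left_cancel₀ hp0'
            linear_combination h5
          apply PadicInt.ext
          push_cast
          exact h6
        have h5 := congrArg toZMod h4
        simpa using h5
      refine ⟨(d' : ZMod p) * toZMod r', ?_⟩
      push_cast
      linear_combination (d' : ZMod p) * h3
    · left
      refine ⟨hpn, ?_⟩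
      intro hpd
      rw [norm_sqf hd hpd, norm_unit hpn] at hXn
      have h3 : ‖r‖ ^ 2 = (p : ℝ) ^ (1 : ℤ) := by
        rw [zpow_neg_one] at hXn
        rw [zpow_one]
        field_simp at hXn
        exact hXn
      exact absurd (par h3) (by decide)
  · -- large
    left
    obtain ⟨s, hs0, hs⟩ := sq_near_one h2 (z := (x ^ 2 - τ * x + c) / x ^ 2) (by
      have e1 : (x ^ 2 - τ * x + c) / x ^ 2 - 1 = -(τ / x) + c / x ^ 2 := by
        field_simp
        ring
      rw [e1]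
      have hx1 : 0 < ‖x‖ := by linarith
      apply norm_lt_of_le
      · rw [norm_neg, norm_div, div_lt_one hx1]
        linarith
      · rw [norm_div, norm_pow, hcn, div_lt_one (by positivity)]
        nlinarith)
    have e2 : x ^ 2 - τ * x + c = x ^ 2 * s ^ 2 := by
      rw [div_eq_iff (pow_ne_zero 2 hx0)] at hs
      rw [hs]
      ring
    refine ⟨Y / (X * s * r), ?_⟩
    have e3 : Y ^ 2 = (X * s * r) ^ 2 * d := by
      rw [hY, e2]
      calc (n : ℚ_[p]) ^ 3 * x * (x ^ 2 * s ^ 2) = (n * x) ^ 2 * s ^ 2 * (n * x) := by ring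
        _ = X ^ 2 * s ^ 2 * X := by rw [← hx]
        _ = X ^ 2 * s ^ 2 * (d * r ^ 2) := by rw [← hr]
        _ = _ := by ring
    field_simp
    rw [e3]
    ring

end

/-! ### The data -/

/-- `2 α = f² + e g²` and `α² - 4 β = e (f g)²`, everything is prime to the primes above three -/
structure Dat (α β e f g : ℤ) : Prop where
  s : 2 * α = f ^ 2 + e * g ^ 2
  c : α ^ 2 - 4 * β = e * (f * g) ^ 2
  β0 : β ≠ 0
  e0 : e ≠ 0
  f0 : f ≠ 0
  g0 : g ≠ 0
  u : ∀ (p : ℕ) [Fact p.Prime], p ≠ 2 → p ≠ 3 →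
    (β : ZMod p) ≠ 0 ∧ (e : ZMod p) ≠ 0 ∧ (f : ZMod p) ≠ 0 ∧ (g : ZMod p) ≠ 0

theorem datE : Dat (-14) 81 (-2) 2 4 where
  s := by norm_num
  c := by norm_num
  β0 := by norm_num
  e0 := by norm_num
  f0 := by norm_num
  g0 := by norm_num
  u := by
    intro p hp h2 h3
    obtain ⟨h2', h3'⟩ := two_three h2 h3
    refine ⟨?_, ?_, ?_, ?_⟩
    · have e : ((81 : ℤ) : ZMod p) = 3 ^ 4 := by norm_num
      rw [e]
      exact pow_ne_zero 4 h3'
    · have e : ((-2 : ℤ) : ZMod p) = -2 := by norm_num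
      rw [e]
      exact neg_ne_zero.2 h2'
    · exact_mod_cast h2'
    · have e : ((4 : ℤ) : ZMod p) = 2 ^ 2 := by norm_num
      rw [e]
      exact pow_ne_zero 2 h2'

theorem datF : Dat 34 1 2 6 4 where
  s := by norm_num
  c := by norm_num
  β0 := by norm_num
  e0 := by norm_num
  f0 := by norm_num
  g0 := by norm_num
  u := by
    intro p hp h2 h3
    obtain ⟨h2', h3'⟩ := two_three h2 h3
    refine ⟨?_, ?_, ?_, ?_⟩
    · have e : ((1 : ℤ) : ZMod p) = 1 := by norm_num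
      rw [e]
      exact one_ne_zero
    · exact_mod_cast h2'
    · have e : ((6 : ℤ) : ZMod p) = 2 * 3 := by norm_num
      rw [e]
      exact mul_ne_zero h2' h3'
    · have e : ((4 : ℤ) : ZMod p) = 2 ^ 2 := by norm_num
      rw [e]
      exact pow_ne_zero 2 h2'

section

variable {α β e f g : ℤ} (D : Dat α β e f g)

include D

theorem Dat.b {n : ℤ} (hn : n ≠ 0) : β * n ^ 2 ≠ 0 := mul_ne_zero D.β0 (pow_ne_zero 2 hn)

theorem Dat.cn (n : ℤ) : (α * n) ^ 2 - 4 * (β * n ^ 2) = e * (f * g) ^ 2 * n ^ 2 := by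
  rw [← D.c]
  ring

theorem Dat.ab {n : ℤ} (hn : n ≠ 0) : (α * n) ^ 2 - 4 * (β * n ^ 2) ≠ 0 := by
  rw [D.cn]
  exact mul_ne_zero (mul_ne_zero D.e0 (pow_ne_zero 2 (mul_ne_zero D.f0 D.g0))) (pow_ne_zero 2 hn)

/-- the isogenous curve -/
theorem Dat.curve {K : Type} [Field K] (n : ℤ) (X : K) :
    X ^ 3 - 2 * ((α * n : ℤ) : K) * X ^ 2 + (((α * n : ℤ) : K) ^ 2 - 4 * ((β * n ^ 2 : ℤ) : K)) * X =
      X * (X - ((f ^ 2 : ℤ) : K) * n) * (X - ((e * g ^ 2 : ℤ) : K) * n) := by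
  have hs : ((2 * α : ℤ) : K) = ((f ^ 2 + e * g ^ 2 : ℤ) : K) := by rw [D.s]
  have hc : ((α ^ 2 - 4 * β : ℤ) : K) = ((e * (f * g) ^ 2 : ℤ) : K) := by rw [D.c]
  push_cast at hs hc ⊢
  linear_combination (-(n : K) * X ^ 2) * hs + (n : K) ^ 2 * X * hc

/-- SN-NPG -/
theorem Dat.npg : NPG α β e := by
  intro p hp n d h2 h3 hn hd hLK
  obtain ⟨hβ, he, hf, hg⟩ := D.u p h2 h3
  have hn0 : (n : ℚ_[p]) ≠ 0 := by exact_mod_cast hn.ne_zero
  have hcz : ((f ^ 2 * (e * g ^ 2) : ℤ) : ZMod p) ≠ 0 := by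
    push_cast
    exact mul_ne_zero (pow_ne_zero 2 hf) (mul_ne_zero he (pow_ne_zero 2 hg))
  have hcd : ¬ (p : ℤ) ∣ f ^ 2 * (e * g ^ 2) := by
    rw [← ZMod.intCast_zmod_eq_zero_iff_dvd]
    exact hcz
  have k1 : IsSquare (d : ℚ_[p]) → ¬ (p : ℤ) ∣ d ∧ IsSquare ((d : ℤ) : ZMod p) := by
    intro h
    have h3 := red (p := p) (d := d) (c := 1) hd (by
      intro h4
      have h5 : p ∣ 1 := by exact_mod_cast h4
      exact hp.out.one_lt.ne' (Nat.dvd_one.1 h5)) (by simpa using h)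
    simpa using h3
  have k2 : IsSquare ((((f ^ 2 * (e * g ^ 2)) * d : ℤ) : ℤ) : ℚ_[p]) →
      ¬ (p : ℤ) ∣ d ∧ IsSquare (((f ^ 2 * (e * g ^ 2)) * d : ℤ) : ZMod p) := fun h => red hd hcd h
  have key : (¬ (p : ℤ) ∣ d ∧ IsSquare ((d : ℤ) : ZMod p)) ∨
      (¬ (p : ℤ) ∣ d ∧ IsSquare (((f ^ 2 * (e * g ^ 2)) * d : ℤ) : ZMod p)) ∨
      (¬ (p : ℤ) ∣ n ∧ ¬ (p : ℤ) ∣ d) ∨
      ((p : ℤ) ∣ n ∧ (p : ℤ) ∣ d ∧ ∃ x : ZMod p, (x = ((f ^ 2 : ℤ) : ZMod p) ∨
        x = ((e * g ^ 2 : ℤ) : ZMod p)) ∧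
        ∀ n' d' : ℤ, n = p * n' → d = p * d' → IsSquare (((n' * d' : ℤ) : ZMod p) * x)) := by
    rcases hLK with h | ⟨u, hu⟩ | ⟨X, Y, r, hX, hY, hr⟩
    · exact Or.inl (k1 h)
    · refine Or.inr (Or.inl (k2 ⟨u / n, ?_⟩))
      have h5 : ((((α * n) ^ 2 - 4 * (β * n ^ 2) : ℤ)) : ℚ_[p]) =
          ((e * (f * g) ^ 2 * n ^ 2 : ℤ) : ℚ_[p]) := by rw [D.cn]
      push_cast at hu h5 ⊢
      rw [h5] at hu
      field_simp
      linear_combination hu
    · rcases core h2 hcd hn.ne_zero (norm_sqf hn) hd hX (by rw [hY, D.curve]) hr with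
        h | h | h | h
      · exact Or.inl (k1 h)
      · exact Or.inr (Or.inl (k2 h))
      · exact Or.inr (Or.inr (Or.inl h))
      · exact Or.inr (Or.inr (Or.inr h))
  refine ⟨?_, ?_⟩
  · intro h
    rcases key with k | k | k | k
    · exact k.1
    · exact k.1
    · exact k.2
    · exact absurd k.1 h
  · intro hpn hes
    obtain ⟨u, hu⟩ := hes
    refine ⟨?_, ?_⟩
    · intro hpd
      rcases key with k | k | k | k
      · exact k.2
      · have h5 := k.2
        push_cast at h5 hcz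
        refine sq_of_mul (a := (f : ZMod p) ^ 2 * ((e : ZMod p) * (g : ZMod p) ^ 2)) ?_ hcz h5
        exact ⟨f * g * u, by rw [hu]; ring⟩
      · exact absurd hpn k.1
      · exact absurd hpd (not_not.2 k.2.1)
    · intro n' d' hn' hd'
      have hpd : (p : ℤ) ∣ d := ⟨d', hd'⟩
      rcases key with k | k | k | k
      · exact absurd hpd k.1
      · exact absurd hpd k.1
      · exact absurd hpn k.1
      · obtain ⟨x, hx, h5⟩ := k.2.2
        have h6 := h5 n' d' hn' hd'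
        rw [mul_comm] at h6
        rcases hx with rfl | rfl
        · refine sq_of_mul ⟨f, ?_⟩ ?_ h6
          · push_cast
            ring
          · push_cast
            exact pow_ne_zero 2 hf
        · refine sq_of_mul ⟨u * g, ?_⟩ ?_ h6
          · push_cast
            rw [hu]
            ring
          · push_cast
            exact mul_ne_zero he (pow_ne_zero 2 hg)

end

section

variable {α β e f g : ℤ} (D : Dat α β e f g) {p : ℕ} [hp : Fact p.Prime]

include D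

/-- squares are in the local image -/
theorem Dat.loc_sq (h2 : p ≠ 2) {n d : ℤ} (hn : n ≠ 0)
    (hdz : (d : ZMod p) ≠ 0) (hd : IsSquare (d : ZMod p)) :
    LocI ℚ_[p] (α * n) (β * n ^ 2) d := by
  have hd0 : d ≠ 0 := by
    rintro rfl
    exact hdz (by simp)
  exact (Pool.Agent.Z864.LQ.t_LQ _ _ d (D.b hn) (D.ab hn) hd0).1 p
    (Or.inl (sqQ h2 d ((quadraticChar_one_iff_isSquare hdz).2 hd)))

/-- `e` times squares are in the local image -/
theorem Dat.loc_sqe (h2 : p ≠ 2) {n d : ℤ} (hn : n ≠ 0)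
    (hdz : (d : ZMod p) ≠ 0) (hez : (e : ZMod p) ≠ 0)
    (hd : IsSquare ((e * d : ℤ) : ZMod p)) :
    LocI ℚ_[p] (α * n) (β * n ^ 2) d := by
  have hd0 : d ≠ 0 := by
    rintro rfl
    exact hdz (by simp)
  refine (Pool.Agent.Z864.LQ.t_LQ _ _ d (D.b hn) (D.ab hn) hd0).1 p (Or.inr ?_)
  obtain ⟨v, hv⟩ := sqQ h2 (e * d)
    ((quadraticChar_one_iff_isSquare (by rw [Int.cast_mul]; exact mul_ne_zero hez hdz)).2 hd)
  refine ⟨v * (f * g * n), ?_⟩
  have h5 : ((((α * n) ^ 2 - 4 * (β * n ^ 2) : ℤ)) : ℚ_[p]) =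
      ((e * (f * g) ^ 2 * n ^ 2 : ℤ) : ℚ_[p]) := by rw [D.cn]
  push_cast at hv h5 ⊢
  rw [h5]
  linear_combination ((f : ℚ_[p]) * g * n) ^ 2 * hv

/-- `e` is not a square modulo `p`: every unit is a square or `e` times a square -/
theorem Dat.loc_dich (h2 : p ≠ 2) {n d : ℤ} (hn : n ≠ 0)
    (hdz : (d : ZMod p) ≠ 0) (hez : (e : ZMod p) ≠ 0)
    (hes : ¬ IsSquare (e : ZMod p)) :
    LocI ℚ_[p] (α * n) (β * n ^ 2) d := by
  by_cases hd : IsSquare (d : ZMod p)
  · exact D.loc_sq h2 hn hdz hd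
  · refine D.loc_sqe h2 hn hdz hez ?_
    rw [Int.cast_mul]
    exact mul_sq hes hd

/-- the points of order two -/
theorem Dat.loc_tors (h2 : p ≠ 2) {n d n' d' x : ℤ} (hn : n ≠ 0) (hd : d ≠ 0)
    (hn' : n = p * n') (hd' : d = p * d') (hx : x = f ^ 2 ∨ x = e * g ^ 2)
    (hz : ((x * n' * d' : ℤ) : ZMod p) ≠ 0)
    (hs : IsSquare ((x * n' * d' : ℤ) : ZMod p)) :
    LocI ℚ_[p] (α * n) (β * n ^ 2) d := by
  have hx0 : x ≠ 0 := by
    rcases hx with rfl | rfl
    · exact pow_ne_zero 2 D.f0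
    · exact mul_ne_zero D.e0 (pow_ne_zero 2 D.g0)
  obtain ⟨v, hv⟩ := sqQ h2 (x * n' * d') ((quadraticChar_one_iff_isSquare hz).2 hs)
  have hp0 : (p : ℚ_[p]) ≠ 0 := by exact_mod_cast hp.out.ne_zero
  have hn0 : (n : ℚ_[p]) ≠ 0 := by exact_mod_cast hn
  have hx0' : (x : ℚ_[p]) ≠ 0 := by exact_mod_cast hx0
  have hd0' : d' ≠ 0 := by
    rintro rfl
    exact hd (by rw [hd', mul_zero])
  have hd0 : (d' : ℚ_[p]) ≠ 0 := by exact_mod_cast hd0'
  refine ⟨x * n, 0, v / d', mul_ne_zero hx0' hn0, ?_, ?_⟩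
  · rw [D.curve]
    rcases hx with rfl | rfl <;> push_cast <;> ring
  · rw [hn', hd']
    push_cast at hv ⊢
    field_simp
    linear_combination hv

end

/-- SN-SPG -/
theorem Dat.spg {α β e f g : ℤ} (D : Dat α β e f g) : SPG α β e := by
  intro p hp n d h2 h3 hn hd
  obtain ⟨hβ, he, hf, hg⟩ := D.u p h2 h3
  have hn0 : n ≠ 0 := hn.ne_zero
  have hd0 : d ≠ 0 := hd.ne_zero
  have hnd : ∀ {m m' : ℤ}, Squarefree m → m = p * m' → ¬ (p : ℤ) ∣ m' := by
    rintro m m' hm rfl ⟨j, rfl⟩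
    have h1 := hm (p : ℤ) ⟨j, by ring⟩
    have h2 := Int.isUnit_iff.1 h1
    have h3 := hp.out.one_lt
    omega
  have tors : ∀ n' d' : ℤ, n = p * n' → d = p * d' → IsSquare ((n' * d' : ℤ) : ZMod p) →
      LocI ℚ_[p] (α * n) (β * n ^ 2) d := by
    intro n' d' hn' hd' hs
    have hnz := int_ne (hnd hn hn')
    have hdz := int_ne (hnd hd hd')
    refine D.loc_tors h2 (x := f ^ 2) hn0 hd0 hn' hd' (Or.inl rfl) ?_ ?_
    · push_cast
      exact mul_ne_zero (mul_ne_zero (pow_ne_zero 2 hf) hnz) hdz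
    · obtain ⟨u, hu⟩ := hs
      push_cast at hu
      refine ⟨f * u, ?_⟩
      push_cast
      linear_combination (f : ZMod p) ^ 2 * hu
  refine ⟨?_, ?_, ?_, tors⟩
  · intro hpn hpd
    have hdz := int_ne hpd
    have hnz := int_ne hpn
    by_cases hds : IsSquare (d : ZMod p)
    · exact D.loc_sq h2 hn0 hdz hds
    · by_cases hes : IsSquare (e : ZMod p)
      · refine Pool.Agent.Z894.LG.aux p _ _ d h2 ?_ ?_ hd0
          (quadraticChar_neg_one_iff_not_isSquare.2 hds)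
        · push_cast
          exact mul_ne_zero hβ (pow_ne_zero 2 hnz)
        · have e1 : (((α * n : ℤ) : ZMod p)) ^ 2 - 4 * (((β * n ^ 2 : ℤ)) : ZMod p) =
              (e : ZMod p) * ((f : ZMod p) * g * n) ^ 2 := by
            have h5 : ((((α * n) ^ 2 - 4 * (β * n ^ 2) : ℤ)) : ZMod p) =
                ((e * (f * g) ^ 2 * n ^ 2 : ℤ) : ZMod p) := by rw [D.cn]
            push_cast at h5 ⊢
            rw [h5]
            ring
          rw [e1, map_mul, (quadraticChar_one_iff_isSquare he).2 hes,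
            quadraticChar_sq_one' (mul_ne_zero (mul_ne_zero hf hg) hnz), one_mul]
      · exact D.loc_dich h2 hn0 hdz he hes
  · intro hpn hes
    by_cases hpd : (p : ℤ) ∣ d
    · obtain ⟨n', hn'⟩ := hpn
      obtain ⟨d', hd'⟩ := hpd
      by_cases hs : IsSquare ((n' * d' : ℤ) : ZMod p)
      · exact tors n' d' hn' hd' hs
      · have hnz := int_ne (hnd hn hn')
        have hdz := int_ne (hnd hd hd')
        refine D.loc_tors h2 (x := e * g ^ 2) hn0 hd0 hn' hd' (Or.inr rfl) ?_ ?_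
        · push_cast
          exact mul_ne_zero (mul_ne_zero (mul_ne_zero he (pow_ne_zero 2 hg)) hnz) hdz
        · obtain ⟨u, hu⟩ := mul_sq hes hs
          refine ⟨g * u, ?_⟩
          push_cast at hu ⊢
          linear_combination (g : ZMod p) ^ 2 * hu
    · exact D.loc_dich h2 hn0 (int_ne hpd) he hes
  · intro hpd hds
    exact D.loc_sq h2 hn0 (int_ne hpd) hds

/-! ### At three -/

lemma red3 {d c : ℤ} (hd : Squarefree d) (hc : ¬ (3 : ℤ) ∣ c)
    (h : IsSquare (((c * d : ℤ) : ℤ) : ℚ_[3])) : ¬ (3 : ℤ) ∣ d := by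
  have h1 := (red (p := 3) hd (by exact_mod_cast hc) h).1
  exact_mod_cast h1

/-- sufficiency at three -/
theorem Dat.suff3 {α β e f g : ℤ} (D : Dat α β e f g) {n d : ℤ} (hn : n % 3 = 2)
    (hd : ¬ (3 : ℤ) ∣ d) : LocI ℚ_[3] (α * n) (β * n ^ 2) d := by
  have hn0 : n ≠ 0 := by omega
  have hd0 : d ≠ 0 := by
    rintro rfl
    exact hd (dvd_zero _)
  have hnQ : (n : ℚ_[3]) ≠ 0 := by exact_mod_cast hn0
  have hdQ : (d : ℚ_[3]) ≠ 0 := by exact_mod_cast hd0
  have hfQ : (f : ℚ_[3]) ≠ 0 := by exact_mod_cast D.f0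
  rcases (by omega : d % 3 = 1 ∨ d % 3 = 2) with h | h
  · exact suf3 (D.b hn0) (D.ab hn0) hd0 h (c := 1) (Or.inl rfl)
  · obtain ⟨w, hw⟩ := sqr3 (m := n * d) (by
      apply m3
      have h1 : ((n : ℤ) : ZMod 3) = 2 := dv3 (r := 2) (by omega)
      have h2 : ((d : ℤ) : ZMod 3) = 2 := dv3 (r := 2) (by omega)
      push_cast
      rw [h1, h2]
      decide)
    push_cast at hw
    refine ⟨f ^ 2 * n, 0, f * w / d, mul_ne_zero (pow_ne_zero 2 hfQ) hnQ, ?_, ?_⟩
    · rw [D.curve]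
      push_cast
      ring
    · field_simp
      linear_combination -hw

lemma nsub_l {p : ℕ} [Fact p.Prime] {x y : ℚ_[p]} (h : ‖y‖ < ‖x‖) : ‖x - y‖ = ‖x‖ := by
  rw [sub_eq_add_neg, Padic.add_eq_max_of_ne (by rw [norm_neg]; exact h.ne'), norm_neg,
    max_eq_left h.le]

lemma nsub_r {p : ℕ} [Fact p.Prime] {x y : ℚ_[p]} (h : ‖x‖ < ‖y‖) : ‖x - y‖ = ‖y‖ := by
  rw [norm_sub_rev, nsub_l h]

theorem t3E : T3G (-14) 81 := by
  intro n d hn hd
  have hn0 : n ≠ 0 := by omega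
  have hnQ : (n : ℚ_[3]) ≠ 0 := by exact_mod_cast hn0
  have hn3 : ¬ ((3 : ℕ) : ℤ) ∣ n := by
    push_cast
    omega
  refine ⟨?_, datE.suff3 hn⟩
  rintro (h | ⟨u, hu⟩ | ⟨X, Y, r, hX, hY, hr⟩)
  · exact red3 hd (c := 1) (by norm_num) (by simpa using h)
  · refine red3 hd (c := -128) (by norm_num) ⟨u / n, ?_⟩
    push_cast at hu ⊢
    field_simp
    linear_combination hu
  · rcases core (p := 3) (by norm_num) (ρ := 2 ^ 2) (σ := -2 * 4 ^ 2) (by norm_num) hn0
      (fun h => absurd h hn3) hd hX (by rw [hY, datE.curve]) hr with h | h | h | h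
    · exact red3 hd (c := 1) (by norm_num) (by simpa using h)
    · exact red3 hd (by norm_num) h
    · exact_mod_cast h.2
    · exact absurd h.1 hn3

theorem t3F : T3G 34 1 := by
  intro n d hn hd
  have hn0 : n ≠ 0 := by omega
  have hnQ : (n : ℚ_[3]) ≠ 0 := by exact_mod_cast hn0
  have hn3 : ¬ ((3 : ℕ) : ℤ) ∣ n := by
    push_cast
    omega
  refine ⟨?_, datF.suff3 hn⟩
  rintro (h | ⟨u, hu⟩ | ⟨X, Y, r, hX, hY, hr⟩)
  · exact red3 hd (c := 1) (by norm_num) (by simpa using h)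
  · refine red3 hd (c := 2) (by norm_num) ⟨u / (24 * n), ?_⟩
    push_cast at hu ⊢
    field_simp
    linear_combination hu
  · rintro ⟨d', rfl⟩
    have hd'3 : ¬ ((3 : ℕ) : ℤ) ∣ d' := by
      rintro ⟨j, rfl⟩
      have h1 := hd 3 ⟨j, by push_cast; ring⟩
      rw [Int.isUnit_iff] at h1
      omega
    have hr0 : r ≠ 0 := by
      rintro rfl
      apply hX
      rw [hr]
      ring
    have hd'n : ‖(d' : ℚ_[3])‖ = 1 := norm_unit hd'3
    have h3n : ‖(3 : ℚ_[3])‖ = (3 : ℝ)⁻¹ := by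
      have := Padic.norm_p (p := 3)
      exact_mod_cast this
    have h12 : ‖(12 * n : ℚ_[3])‖ = (3 : ℝ)⁻¹ := by
      have h4 : ‖((4 * n : ℤ) : ℚ_[3])‖ = 1 := norm_unit (by push_cast; omega)
      have e : (12 * n : ℚ_[3]) = 3 * ((4 * n : ℤ) : ℚ_[3]) := by
        push_cast
        ring
      rw [e, norm_mul, h3n, h4, mul_one]
    have h32 : ‖(32 * n : ℚ_[3])‖ = 1 := by
      have h4 : ‖((32 * n : ℤ) : ℚ_[3])‖ = 1 := norm_unit (by push_cast; omega)
      push_cast at h4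
      exact h4
    have hW : (Y / (3 * r)) ^ 2 = d' * (d' * r ^ 2 - 12 * n) * (3 * (d' * r ^ 2) - 32 * n) := by
      rw [div_pow, hY, datF.curve, hr]
      push_cast
      field_simp
      ring
    obtain ⟨k, hk⟩ : ∃ k : ℤ, ‖r‖ = (3 : ℝ) ^ k :=
      ⟨-r.valuation, by exact_mod_cast Padic.norm_eq_zpow_neg_valuation hr0⟩
    have hk2 : ‖(d' * r ^ 2 : ℚ_[3])‖ = (3 : ℝ) ^ (2 * k) := by
      rw [norm_mul, hd'n, one_mul, norm_pow, hk, ← zpow_natCast, ← zpow_mul]
      congr 1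
      push_cast
      ring
    have hk3 : ‖(3 * (d' * r ^ 2) : ℚ_[3])‖ = (3 : ℝ) ^ (2 * k - 1) := by
      rw [norm_mul, hk2, h3n, zpow_sub₀ (by norm_num), zpow_one]
      ring
    have h13 : (1 : ℝ) < 3 := by norm_num
    have hI : (3 : ℝ)⁻¹ = (3 : ℝ) ^ (-1 : ℤ) := by rw [zpow_neg_one]
    have hO : (1 : ℝ) = (3 : ℝ) ^ (0 : ℤ) := by rw [zpow_zero]
    rcases lt_trichotomy k 0 with hk0 | hk0 | hk0
    · have e1 : ‖(d' * r ^ 2 - 12 * n : ℚ_[3])‖ = (3 : ℝ) ^ (-1 : ℤ) := by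
        rw [nsub_r, h12, hI]
        rw [hk2, h12, hI]
        exact zpow_lt_zpow_right₀ h13 (by omega)
      have e2 : ‖(3 * (d' * r ^ 2) - 32 * n : ℚ_[3])‖ = 1 := by
        rw [nsub_r, h32]
        rw [hk3, h32, hO]
        exact zpow_lt_zpow_right₀ h13 (by omega)
      have h5 : ‖Y / (3 * r)‖ ^ 2 = ((3 : ℕ) : ℝ) ^ (-1 : ℤ) := by
        rw [← norm_pow, hW, norm_mul, norm_mul, hd'n, e1, e2]
        norm_num
      exact absurd (par h5) (by decide)
    · subst hk0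
      rw [zpow_zero] at hk
      have hWn : ‖Y / (3 * r)‖ ≤ 1 := by
        by_contra hcon
        push Not at hcon
        have e1 : ‖(d' * r ^ 2 - 12 * n : ℚ_[3])‖ ≤ 1 := by
          rw [nsub_l]
          · rw [hk2]; norm_num
          · rw [hk2, h12]; norm_num
        have e2 : ‖(3 * (d' * r ^ 2) - 32 * n : ℚ_[3])‖ = 1 := by
          rw [nsub_r, h32]
          rw [hk3, h32, hO]
          exact zpow_lt_zpow_right₀ h13 (by omega)
        have h5 : ‖Y / (3 * r)‖ ^ 2 ≤ 1 := by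
          rw [← norm_pow, hW, norm_mul, norm_mul, hd'n, e2]
          linarith
        nlinarith
      obtain ⟨r', hr'⟩ : ∃ w : ℤ_[3], (w : ℚ_[3]) = r := ⟨⟨r, hk.le⟩, rfl⟩
      obtain ⟨w, hw⟩ : ∃ w : ℤ_[3], (w : ℚ_[3]) = Y / (3 * r) := ⟨⟨_, hWn⟩, rfl⟩
      have h5 : w ^ 2 = d' * (d' * r' ^ 2 - 12 * n) * (3 * (d' * r' ^ 2) - 32 * n) := by
        apply PadicInt.ext
        push_cast
        rw [hw, hr', hW]
        rfl
      have h6 := congrArg toZMod h5
      simp only [map_pow, map_mul, map_sub, map_intCast, map_ofNat] at h6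
      have hrz : toZMod r' ≠ 0 := by
        intro h0
        rw [toZMod_eq_zero, PadicInt.norm_def, hr', hk] at h0
        exact lt_irrefl _ h0
      have hnz : ((n : ℤ) : ZMod 3) = 2 := dv3 (r := 2) hn
      have hdz : ((d' : ℤ) : ZMod 3) ≠ 0 := int_ne hd'3
      rw [hnz] at h6
      have fin : ∀ w d r : ZMod 3, d ≠ 0 → r ≠ 0 →
          w ^ 2 ≠ d * (d * r ^ 2 - 12 * 2) * (3 * (d * r ^ 2) - 32 * 2) := by decide
      exact fin _ _ _ hdz hrz h6
    · have e1 : ‖(d' * r ^ 2 - 12 * n : ℚ_[3])‖ = (3 : ℝ) ^ (2 * k) := by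
        rw [nsub_l, hk2]
        rw [hk2, h12, hI]
        exact zpow_lt_zpow_right₀ h13 (by omega)
      have e2 : ‖(3 * (d' * r ^ 2) - 32 * n : ℚ_[3])‖ = (3 : ℝ) ^ (2 * k - 1) := by
        rw [nsub_l, hk3]
        rw [hk3, h32, hO]
        exact zpow_lt_zpow_right₀ h13 (by omega)
      have h5 : ‖Y / (3 * r)‖ ^ 2 = ((3 : ℕ) : ℝ) ^ (4 * k - 1 : ℤ) := by
        rw [← norm_pow, hW, norm_mul, norm_mul, hd'n, e1, e2, one_mul, ← zpow_add₀ (by norm_num)]
        push_cast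
        congr 1
        ring
      have h6 := par h5
      rw [Int.even_iff] at h6
      omega

/-! ### At two -/

lemma dv8 {d : ℤ} {r : ℤ} (h : d % 8 = r) : ((d : ℤ) : ZMod 8) = ((r : ℤ) : ZMod 8) :=
  dv_of (N := 8) (by exact_mod_cast h)

lemma m8 {m : ℤ} (h : ((m : ℤ) : ZMod 8) = 1) : m % 8 = 1 := by
  have h1 : ((m : ℤ) : ZMod 8) = ((1 : ℤ) : ZMod 8) := by simpa using h
  rw [ZMod.intCast_eq_intCast_iff'] at h1
  omega

lemma sq8 {n d a b : ℤ} (hn : n % 8 = a) (hd : d % 8 = b) (P : ℤ → ℤ → ℤ)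
    (Q : ZMod 8 → ZMod 8 → ZMod 8) (hPQ : ∀ x y : ℤ, ((P x y : ℤ) : ZMod 8) = Q x y)
    (h : Q (a : ℤ) (b : ℤ) = 1) : ∃ w : ℚ_[2], w ^ 2 = (P n d : ℤ) := by
  apply sqr8
  apply m8
  rw [hPQ, dv8 hn, dv8 hd, h]

lemma cases8 {d : ℤ} (hd : Squarefree d) : d % 8 = 1 ∨ d % 8 = 3 ∨ d % 8 = 5 ∨ d % 8 = 7 ∨
    ∃ d', d = 2 * d' ∧ (d' % 8 = 1 ∨ d' % 8 = 3 ∨ d' % 8 = 5 ∨ d' % 8 = 7) := by
  by_cases h : d % 2 = 0
  · refine Or.inr (Or.inr (Or.inr (Or.inr ⟨d / 2, by omega, ?_⟩)))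
    by_contra hcon
    have h4 : d = 2 * 2 * (d / 2 / 2) := by omega
    have := hd 2 ⟨_, h4⟩
    rw [Int.isUnit_iff] at this
    omega
  · omega

theorem t2E {n d : ℤ} (hd : Squarefree d) (hn : n % 8 = 3) :
    LocI ℚ_[2] (-14 * n) (81 * n ^ 2) d := by
  have hn0 : n ≠ 0 := by omega
  have hnQ : (n : ℚ_[2]) ≠ 0 := by exact_mod_cast hn0
  have hd0 : d ≠ 0 := hd.ne_zero
  have hdQ : (d : ℚ_[2]) ≠ 0 := by exact_mod_cast hd0
  have h4Q : (n + 4 : ℚ_[2]) ≠ 0 := by
    have : n + 4 ≠ 0 := by omega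
    exact_mod_cast this
  have h9Q : (9 * n + 4 : ℚ_[2]) ≠ 0 := by
    have : 9 * n + 4 ≠ 0 := by omega
    exact_mod_cast this
  have hb := datE.b hn0
  have hab := datE.ab hn0
  rcases cases8 hd with h | h | h | h | ⟨d', rfl, h⟩
  · exact suf2 hb hab hd0 h (c := 1) (Or.inl rfl)
  · obtain ⟨w, hw⟩ := sq8 hn h (fun x y => x * y) (fun x y => x * y)
      (fun x y => by push_cast; ring) (by decide)
    push_cast at hw
    refine ⟨4 * n, 0, 2 * w / d, mul_ne_zero (by norm_num) hnQ, ?_, ?_⟩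
    · rw [datE.curve]
      push_cast
      ring
    · field_simp
      linear_combination -4 * hw
  · obtain ⟨w, hw⟩ := sq8 hn h (fun x y => y * (y - 4 * x) * (y + 32 * x))
      (fun x y => y * (y - 4 * x) * (y + 32 * x)) (fun x y => by push_cast; ring) (by decide)
    push_cast at hw
    refine ⟨d, w, 1, hdQ, ?_, by ring⟩
    rw [datE.curve, hw]
    push_cast
    ring
  · obtain ⟨w, hw⟩ := sq8 hn h (fun x _ => (x + 4) * (9 * x + 4))
      (fun x _ => (x + 4) * (9 * x + 4)) (fun x y => by push_cast; ring) (by decide)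
    obtain ⟨v, hv⟩ := sq8 hn h (fun x y => (x + 4) * y)
      (fun x y => (x + 4) * y) (fun x y => by push_cast; ring) (by decide)
    push_cast at hw hv
    refine ⟨4 * (n + 4), 16 * w, 2 * v / d, mul_ne_zero (by norm_num) h4Q, ?_, ?_⟩
    · rw [datE.curve, mul_pow, hw]
      push_cast
      ring
    · field_simp
      linear_combination -4 * hv
  · have hd'0 : d' ≠ 0 := by
      rintro rfl
      exact hd0 (mul_zero _)
    have hd'Q : (d' : ℚ_[2]) ≠ 0 := by exact_mod_cast hd'0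
    rcases h with h | h | h | h
    · obtain ⟨w, hw⟩ := sq8 hn h (fun x _ => (x + 4) * (9 * x + 4))
        (fun x _ => (x + 4) * (9 * x + 4)) (fun x y => by push_cast; ring) (by decide)
      obtain ⟨v, hv⟩ := sq8 hn h (fun x y => -(x + 4) * y)
        (fun x y => -(x + 4) * y) (fun x y => by push_cast; ring) (by decide)
      push_cast at hw hv
      refine ⟨-32 * n ^ 2 / (n + 4), 128 * n ^ 2 * w / (n + 4) ^ 2, 4 * n * v / ((n + 4) * d'),
        div_ne_zero (mul_ne_zero (by norm_num) (pow_ne_zero 2 hnQ)) h4Q, ?_, ?_⟩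
      · rw [datE.curve, div_pow, mul_pow, hw]
        push_cast
        field_simp
        ring
      · rw [div_pow, mul_pow, hv]
        push_cast
        field_simp
        ring
    · obtain ⟨w, hw⟩ := sq8 hn h (fun x y => y * (4 * x + y) * (32 * x - y))
        (fun x y => y * (4 * x + y) * (32 * x - y)) (fun x y => by push_cast; ring) (by decide)
      push_cast at hw
      refine ⟨128 * n ^ 2 / d', 128 * n ^ 2 * w / d' ^ 2, 8 * n / d',
        div_ne_zero (mul_ne_zero (by norm_num) (pow_ne_zero 2 hnQ)) hd'Q, ?_, ?_⟩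
      · rw [datE.curve, div_pow, mul_pow, hw]
        push_cast
        field_simp
        ring
      · push_cast
        field_simp
        ring
    · obtain ⟨w, hw⟩ := sq8 hn h (fun x y => -x * y) (fun x y => -x * y)
        (fun x y => by push_cast; ring) (by decide)
      push_cast at hw
      refine ⟨-32 * n, 0, 4 * w / d', mul_ne_zero (by norm_num) hnQ, ?_, ?_⟩
      · rw [datE.curve]
        push_cast
        ring
      · rw [div_pow, mul_pow, hw]
        push_cast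
        field_simp
        ring
    · exact suf2 (e := -d') (c := 16 * n) hb hab hd0 (by omega) (Or.inr (by ring))

theorem t2F {n d : ℤ} (hd : Squarefree d) (hn : n % 8 = 3) :
    LocI ℚ_[2] (34 * n) (1 * n ^ 2) d := by
  have hn0 : n ≠ 0 := by omega
  have hnQ : (n : ℚ_[2]) ≠ 0 := by exact_mod_cast hn0
  have hd0 : d ≠ 0 := hd.ne_zero
  have hdQ : (d : ℚ_[2]) ≠ 0 := by exact_mod_cast hd0
  have h4Q : (n + 4 : ℚ_[2]) ≠ 0 := by
    have : n + 4 ≠ 0 := by omega
    exact_mod_cast this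
  have h9Q : (9 * n + 4 : ℚ_[2]) ≠ 0 := by
    have : 9 * n + 4 ≠ 0 := by omega
    exact_mod_cast this
  have hb := datF.b hn0
  have hab := datF.ab hn0
  rcases cases8 hd with h | h | h | h | ⟨d', rfl, h⟩
  · exact suf2 hb hab hd0 h (c := 1) (Or.inl rfl)
  · obtain ⟨w, hw⟩ := sq8 hn h (fun x y => x * y) (fun x y => x * y)
      (fun x y => by push_cast; ring) (by decide)
    push_cast at hw
    refine ⟨36 * n, 0, 6 * w / d, mul_ne_zero (by norm_num) hnQ, ?_, ?_⟩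
    · rw [datF.curve]
      push_cast
      ring
    · field_simp
      linear_combination -36 * hw
  · obtain ⟨w, hw⟩ := sq8 hn h (fun x y => y * (y - 36 * x) * (y - 32 * x))
      (fun x y => y * (y - 36 * x) * (y - 32 * x)) (fun x y => by push_cast; ring) (by decide)
    push_cast at hw
    refine ⟨d, w, 1, hdQ, ?_, by ring⟩
    rw [datF.curve, hw]
    push_cast
    ring
  · obtain ⟨w, hw⟩ := sq8 hn h (fun x _ => (x + 4) * (9 * x + 4))
      (fun x _ => (x + 4) * (9 * x + 4)) (fun x y => by push_cast; ring) (by decide)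
    obtain ⟨v, hv⟩ := sq8 hn h (fun x y => (9 * x + 4) * y)
      (fun x y => (9 * x + 4) * y) (fun x y => by push_cast; ring) (by decide)
    push_cast at hw hv
    refine ⟨4 * (9 * n + 4), 16 * w, 2 * v / d, mul_ne_zero (by norm_num) h9Q, ?_, ?_⟩
    · rw [datF.curve, mul_pow, hw]
      push_cast
      ring
    · field_simp
      linear_combination -4 * hv
  · have hd'0 : d' ≠ 0 := by
      rintro rfl
      exact hd0 (mul_zero _)
    have hd'Q : (d' : ℚ_[2]) ≠ 0 := by exact_mod_cast hd'0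
    rcases h with h | h | h | h
    · exact suf2 (e := d') (c := 48 * n) hb hab hd0 h (Or.inr (by ring))
    · obtain ⟨w, hw⟩ := sq8 hn h (fun x y => x * y) (fun x y => x * y)
        (fun x y => by push_cast; ring) (by decide)
      push_cast at hw
      refine ⟨32 * n, 0, 4 * w / d', mul_ne_zero (by norm_num) hnQ, ?_, ?_⟩
      · rw [datF.curve]
        push_cast
        ring
      · rw [div_pow, mul_pow, hw]
        push_cast
        field_simp
        ring
    · obtain ⟨w, hw⟩ := sq8 hn h (fun x y => y * (36 * x - y) * (32 * x - y))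
        (fun x y => y * (36 * x - y) * (32 * x - y)) (fun x y => by push_cast; ring) (by decide)
      push_cast at hw
      refine ⟨1152 * n ^ 2 / d', 1152 * n ^ 2 * w / d' ^ 2, 24 * n / d',
        div_ne_zero (mul_ne_zero (by norm_num) (pow_ne_zero 2 hnQ)) hd'Q, ?_, ?_⟩
      · rw [datF.curve, div_pow, mul_pow, hw]
        push_cast
        field_simp
        ring
      · push_cast
        field_simp
        ring
    · obtain ⟨w, hw⟩ := sq8 hn h (fun x _ => (x + 4) * (9 * x + 4))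
        (fun x _ => (x + 4) * (9 * x + 4)) (fun x y => by push_cast; ring) (by decide)
      obtain ⟨v, hv⟩ := sq8 hn h (fun x y => (9 * x + 4) * y)
        (fun x y => (9 * x + 4) * y) (fun x y => by push_cast; ring) (by decide)
      push_cast at hw hv
      refine ⟨288 * n ^ 2 / (9 * n + 4), 1152 * n ^ 2 * w / (9 * n + 4) ^ 2,
        12 * n * v / ((9 * n + 4) * d'),
        div_ne_zero (mul_ne_zero (by norm_num) (pow_ne_zero 2 hnQ)) h9Q, ?_, ?_⟩
      · rw [datF.curve, div_pow, mul_pow, hw]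
        obtain ⟨q, hq⟩ : ∃ q : ℚ_[2], q = 9 * n + 4 := ⟨_, rfl⟩
        rw [← hq] at h9Q ⊢
        push_cast
        field_simp
        rw [hq]
        ring
      · rw [div_pow, mul_pow, hv]
        push_cast
        field_simp
        ring

/-! ### At the real place -/

theorem tRE {n d : ℤ} (hd : Squarefree d) (hn : 0 < n) : LocI ℝ (-14 * n) (81 * n ^ 2) d := by
  have hd0 : d ≠ 0 := hd.ne_zero
  rcases lt_or_gt_of_ne hd0 with h | h
  · have hdR : (d : ℝ) < 0 := by exact_mod_cast h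
    have hnR : (0 : ℝ) < n := by exact_mod_cast hn
    refine ⟨-(32 * n), 0, Real.sqrt (32 * n / (-d)), by linarith, ?_, ?_⟩
    · rw [datE.curve]
      push_cast
      ring
    · rw [Real.sq_sqrt (by
        have : (0 : ℝ) < -d := by linarith
        positivity)]
      field_simp
  · exact (Pool.Agent.Z864.LQ.t_LQ _ _ d (datE.b hn.ne') (datE.ab hn.ne') hd0).2 h

theorem tRF {n d : ℤ} (hd : Squarefree d) (hn : 0 < n) :
    (LK ℝ (34 * n) (1 * n ^ 2) d → 0 < d) ∧ (0 < d → LocI ℝ (34 * n) (1 * n ^ 2) d) := by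
  have hd0 : d ≠ 0 := hd.ne_zero
  have hnR : (0 : ℝ) < n := by exact_mod_cast hn
  refine ⟨?_, (Pool.Agent.Z864.LQ.t_LQ _ _ d (datF.b hn.ne') (datF.ab hn.ne') hd0).2⟩
  intro h
  by_contra hcon
  have hneg : d < 0 := by omega
  have hdR : (d : ℝ) < 0 := by exact_mod_cast hneg
  rcases h with ⟨u, hu⟩ | ⟨u, hu⟩ | ⟨X, Y, r, hX, hY, hr⟩
  · nlinarith [mul_self_nonneg u]
  · push_cast at hu
    have h1 : (d : ℝ) * (1152 * n ^ 2) = u * u := by
      rw [← hu]
      ring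
    have h2 : (0 : ℝ) < 1152 * n ^ 2 := by positivity
    nlinarith [mul_self_nonneg u]
  · rw [datF.curve] at hY
    push_cast at hY
    have hX0 : X < 0 := by
      rcases lt_or_gt_of_ne hX with h | h
      · exact h
      · exfalso
        nlinarith [sq_nonneg r]
    have h1 : X - 6 ^ 2 * n < 0 := by linarith
    have h2 : X - 2 * 4 ^ 2 * n < 0 := by linarith
    have h3 : 0 < X * (X - 6 ^ 2 * n) := mul_pos_of_neg_of_neg hX0 h1
    have h4 := mul_neg_of_pos_of_neg h3 h2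
    nlinarith [sq_nonneg Y]

/-! ### The results -/

/-- **SN-LOCE.** -/
theorem t_LOCE : S_LOCE :=
  ⟨datE.npg, datE.spg, t3E, fun _ _ hd => ⟨t2E hd, tRE hd⟩⟩

/-- **SN-LOCF.** -/
theorem t_LOCF : S_LOCF :=
  ⟨datF.npg, datF.spg, t3F, fun _ _ hd => ⟨t2F hd, tRF hd⟩⟩

end Pool.Agent.N163.SN
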